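import Pool.Agent.Y990.OA.Stm

set_option autoImplicit false

/-! Project OA, job OA-AL12: the family of the clusters touching the frame. -/

namespace Pool.Agent.Y258.OA

open Set
open Pool.Agent.Y990.CB Pool.Agent.Y990.OA

variable {d : ℕ}

lemma nm_step {a b : Z d} (h : Nb a b) : nm b ≤ nm a + 1 := by
  rw [nm_le]
  intro i
  have h1 := Nb_coord h i
  have h2 := abs_le_nm a i
  have h3 : |b i| ≤ |a i| + |a i - b i| := by
    have := abs_sub_abs_le_abs_sub (b i) (a i)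
    rw [abs_sub_comm (b i) (a i)] at this
    linarith
  push_cast
  linarith

lemma nm_Fr {L : ℕ} {u : Z d} (hu : u ∈ Fr (0 : Z d) L) : nm u = L := by
  obtain ⟨h1, i, h2⟩ := hu
  apply le_antisymm
  · rw [nm_le]
    intro j
    simpa using h1 j
  · have h3 := abs_le_nm u i
    have h4 : |u i| = L := by simpa using h2
    rw [h4] at h3
    exact_mod_cast h3

lemma walk_nm {M : Mod d} {ω : M.ι → Bool} {R : Set (Z d)} {a b : Z d} {j : ℕ}
    (p : (G M ω R).Walk a b) (h1 : nm a ≤ j) (h2 : j ≤ nm b) :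
    ∃ y, (G M ω R).Reachable a y ∧ nm y = j := by
  induction p with
  | nil => exact ⟨_, SimpleGraph.Reachable.refl _, le_antisymm h1 h2⟩
  | cons h q ih =>
    rename_i a b c
    by_cases hj : nm a = j
    · exact ⟨a, SimpleGraph.Reachable.refl _, hj⟩
    · have h3 := nm_step h.1
      obtain ⟨y, hy, hy2⟩ := ih (by omega) h2
      exact ⟨y, SimpleGraph.Reachable.trans (SimpleGraph.Adj.reachable h) hy, hy2⟩

lemma mem_Ff {L : ℕ} {u : Z d} : u ∈ Ff (0 : Z d) L ↔ u ∈ Fr (0 : Z d) L := by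
  unfold Ff
  simp only [Finset.mem_filter, mem_Bf]
  exact ⟨fun h => h.2, fun h => ⟨h.1, h⟩⟩

lemma mem_Al {M : Mod d} {L : ℕ} {ω : M.ι → Bool} {X : Set (Z d)} :
    X ∈ Al M L ω ↔ ∃ u ∈ Fr (0 : Z d) L, cl M ω (Bo 0 L) u = X := by
  unfold Al
  simp only [Finset.mem_image, mem_Ff]

theorem al1 : S_al1 := by
  intro d M L ω
  refine ⟨fun X hX Y hY hXY => ?_, fun X hX => ?_⟩
  · obtain ⟨u, _, rfl⟩ := mem_Al.1 hX
    obtain ⟨v, _, rfl⟩ := mem_Al.1 hY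
    rw [Set.disjoint_left]
    intro z hz hz'
    exact hXY ((cl_eq hz).symm.trans (cl_eq hz'))
  · obtain ⟨u, hu, rfl⟩ := mem_Al.1 hX
    refine ⟨cl_subset hu.1, fun x hx j hj hjL => ?_⟩
    obtain ⟨p⟩ := SimpleGraph.Reachable.symm hx
    obtain ⟨y, hy, hy2⟩ := walk_nm p hj (by rw [nm_Fr hu]; exact hjL)
    exact ⟨y, SimpleGraph.Reachable.trans hx hy, hy2⟩

theorem al2 : S_al2 := by
  classical
  intro d M L ω f
  have hmap : ∀ u ∈ Ff (0 : Z d) L, cl M ω (Bo 0 L) u ∈ Al M L ω := fun u hu =>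
    mem_Al.2 ⟨u, mem_Ff.1 hu, rfl⟩
  rw [← Finset.sum_fiberwise_of_maps_to hmap]
  refine Finset.sum_congr rfl fun X hX => ?_
  obtain ⟨u₀, hu₀, rfl⟩ := mem_Al.1 hX
  set X : Set (Z d) := cl M ω (Bo 0 L) u₀ with hXd
  have h1 : ∀ u ∈ (Ff (0 : Z d) L).filter (fun u => cl M ω (Bo 0 L) u = X),
      (1 : ℝ) / (max 1 (cl M ω (Bo 0 L) u ∩ Fr 0 L).ncard : ℕ) * f (cl M ω (Bo 0 L) u) =
      (1 : ℝ) / (max 1 (X ∩ Fr 0 L).ncard : ℕ) * f X := by
    intro u hu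
    rw [(Finset.mem_filter.1 hu).2]
  rw [Finset.sum_congr rfl h1, Finset.sum_const, nsmul_eq_mul]
  have h2 : (((Ff (0 : Z d) L).filter (fun u => cl M ω (Bo 0 L) u = X) : Finset (Z d)) :
      Set (Z d)) = X ∩ Fr 0 L := by
    ext u
    rw [Finset.coe_filter]
    constructor
    · rintro ⟨h3, h4⟩
      refine ⟨?_, mem_Ff.1 h3⟩
      rw [← h4]
      exact SimpleGraph.Reachable.refl _
    · rintro ⟨h3, h4⟩
      exact ⟨mem_Ff.2 h4, cl_eq h3⟩
  have h3 : ((Ff (0 : Z d) L).filter (fun u => cl M ω (Bo 0 L) u = X)).card =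
      (X ∩ Fr 0 L).ncard := by
    rw [← h2, Set.ncard_coe_finset]
  have h4 : 1 ≤ (X ∩ Fr 0 L).ncard := by
    rw [← h3, Nat.succ_le_iff, Finset.card_pos]
    exact ⟨u₀, Finset.mem_filter.2 ⟨mem_Ff.2 hu₀, rfl⟩⟩
  rw [h3, max_eq_right h4]
  have h5 : ((X ∩ Fr 0 L).ncard : ℝ) ≠ 0 := by
    have : (X ∩ Fr 0 L).ncard ≠ 0 := by omega
    exact_mod_cast this
  field_simp

end Pool.Agent.Y258.OA
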